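import Pool.Agent.H90.Fol.Main

set_option autoImplicit false

namespace Pool.Agent.Results.MP_b3426d_an.C2Foliation

open Pool.Agent.H90.Fol

/-- Let `φ` be a maximal plurisubharmonic function of class `C²` on an open set `Ω` of `ℂ²`. Then the
set where `dd^c φ ≠ 0` is foliated by holomorphic discs along which `φ` is harmonic, and the leaves
contain every holomorphic disc in this set along which `φ` is harmonic. -/
theorem result (Ω : Set (ℂ × ℂ)) (hΩ : IsOpen Ω) (φ : ℂ × ℂ → ℝ) (hφ : ContDiffOn ℝ 2 φ Ω)
    (h : IsMaximalPSH Ω φ) :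
    ∃ F : HolFoliation (nonzeroSet Ω φ), F.HarmonicAlong φ ∧ F.ContainsHarmonicDiscs φ :=
  exists_foliation hΩ hφ h

end Pool.Agent.Results.MP_b3426d_an.C2Foliation
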