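import Pool.Agent.H28.Fol.Closed

set_option autoImplicit false

open scoped ContDiff Topology

namespace Pool.Agent.Results.MP_b3426d_an.ClosedSupport

open Pool.Agent.H90.Fol Pool.Agent.H28.Fol

universe u

/-- The function `φ = |z w|²` is real analytic and maximal plurisubharmonic on `ℂ²`, and the support
of `dd^c φ`, the closure of the set where the complex Hessian is nonzero, is all of `ℂ²`. But no
neighbourhood of the origin, in particular not the support itself, has a foliation or a lamination by
holomorphic discs along which `φ` is harmonic. -/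
theorem result :
    ContDiff ℝ ω prodSq ∧ IsMaximalPSH Set.univ prodSq ∧ suppDDc Set.univ prodSq = Set.univ ∧
      (∀ U ∈ 𝓝 (0 : ℂ × ℂ), ¬ ∃ F : HolFoliation U, F.HarmonicAlong prodSq) ∧
      ∀ S ∈ 𝓝 (0 : ℂ × ℂ), ¬ ∃ L : HolLamination.{u} S, L.HarmonicAlong prodSq :=
  ⟨contDiff_prodSq, isMaximalPSH_prodSq, suppDDc_prodSq,
    fun _ hU ⟨F, hF⟩ => no_foliation (mem_of_mem_nhds hU) F hF,
    fun _ hS ⟨L, hL⟩ => no_lamination hS L hL⟩

end Pool.Agent.Results.MP_b3426d_an.ClosedSupport
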